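import Pool.Agent.Helper36.EV.Goals

/-! Evolution equations, packet LIM: passage to the limit. -/

namespace Pool.Agent.Helper13.EV

open Set Filter Topology Pool.Agent.Helper36.EV

variable {X H : Type} [AddCommGroup X] [Module ℝ X] [NormedAddCommGroup H] [NormedSpace ℝ H]

theorem mv {S : Scale X H} (E : Evo S) {n : ℕ} {h : ℝ → H} (hs : E.Sol n h) (m : ℕ) {t s' : ℝ}
    (ht : t ∈ Icc 0 E.τ) (hs' : s' ∈ Icc 0 E.τ) (v : X) {M : ℝ}
    (hM : ∀ σ ∈ uIcc t s', S.nrm m (S.J n (S.ι (E.F σ (E.sap n h σ))) - v) ≤ M) :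
    S.nrm m (E.ap n h s' - E.ap n h t - (s' - t) • v) ≤ M * |s' - t| := by
  set z := E.ap n h s' - E.ap n h t - (s' - t) • v with hz
  have hsub : uIcc t s' ⊆ Icc 0 E.τ := uIcc_subset_Icc ht hs'
  have hd : ∀ σ ∈ uIcc t s', HasDerivWithinAt
      (fun σ => S.B m z (E.u0 + S.J n (h σ)) - σ * S.B m z v)
      (S.B m z (S.J n (S.ι (E.F σ (E.sap n h σ)))) - S.B m z v) (uIcc t s') σ := by
    intro σ hσ
    have h1 := S.hasDeriv_lin n m z E.u0 ((hs.der σ (hsub hσ)).mono hsub)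
    have h2 : HasDerivWithinAt (fun σ : ℝ => σ * S.B m z v) (S.B m z v) (uIcc t s') σ := by
      simpa using (hasDerivWithinAt_id σ (uIcc t s')).mul_const (S.B m z v)
    exact h1.sub h2
  have hb : ∀ σ ∈ uIcc t s',
      ‖S.B m z (S.J n (S.ι (E.F σ (E.sap n h σ)))) - S.B m z v‖ ≤ S.nrm m z * M := by
    intro σ hσ
    rw [← map_sub, Real.norm_eq_abs]
    exact (S.abs_B_le m _ _).trans (mul_le_mul_of_nonneg_left (hM σ hσ) (S.nrm_nonneg _ _))
  have h1 := (convex_uIcc t s').norm_image_sub_le_of_norm_hasDerivWithin_le hd hb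
    left_mem_uIcc right_mem_uIcc
  have h3 : S.nrm m z ^ 2 = S.B m z (E.ap n h s') - S.B m z (E.ap n h t) -
      (s' - t) * S.B m z v := by
    rw [S.nrm_sq]
    have h4 : S.q m z = S.B m z (E.ap n h s' - E.ap n h t - (s' - t) • v) := by rw [← hz]; rfl
    rw [h4, map_sub, map_sub, map_smul, smul_eq_mul]
  have h5 : (S.B m z (E.u0 + S.J n (h s')) - s' * S.B m z v) -
      (S.B m z (E.u0 + S.J n (h t)) - t * S.B m z v) = S.nrm m z ^ 2 := by
    rw [h3]; unfold Evo.ap; ring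
  rw [h5, Real.norm_eq_abs, Real.norm_eq_abs, abs_of_nonneg (sq_nonneg _)] at h1
  have hM0 : 0 ≤ M := (S.nrm_nonneg _ _).trans (hM t left_mem_uIcc)
  rcases (S.nrm_nonneg m z).eq_or_lt with h0 | h0
  · rw [← h0]; positivity
  · have h6 : S.nrm m z * S.nrm m z ≤ S.nrm m z * (M * |s' - t|) := by
      calc S.nrm m z * S.nrm m z = S.nrm m z ^ 2 := by ring
        _ ≤ S.nrm m z * M * |s' - t| := h1
        _ = _ := by ring
    exact le_of_mul_le_mul_left h6 h0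

theorem le_of_lim (S : Scale X H) {m : ℕ} {z : ℕ → X} {w : X}
    (h : ∀ δ > 0, ∃ n1, ∀ n ≥ n1, S.nrm m (z n - w) ≤ δ) {K : ℝ} {N : ℕ}
    (hK : ∀ n ≥ N, S.nrm m (z n) ≤ K) : S.nrm m w ≤ K := by
  refine le_of_forall_pos_le_add fun δ hδ => ?_
  obtain ⟨n1, h1⟩ := h δ hδ
  have h2 := h1 (max n1 N) (le_max_left _ _)
  have h3 := hK (max n1 N) (le_max_right _ _)
  have h4 : z (max n1 N) - (z (max n1 N) - w) = w := by abel
  calc S.nrm m w = S.nrm m (z (max n1 N) - (z (max n1 N) - w)) := by rw [h4]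
    _ ≤ S.nrm m (z (max n1 N)) + S.nrm m (z (max n1 N) - w) := S.nrm_sub_le _ _ _
    _ ≤ K + δ := add_le_add h3 h2

theorem LIM (gw : G_GW) : G_LIM := by
  intro high cau X H _ _ _ _ S E hex
  obtain ⟨n0, hn0⟩ := hex
  have hn0' : ∀ n : ℕ, ∃ h : ℝ → H, E.Sol (n0 + n) h := fun n => hn0 _ (Nat.le_add_right _ _)
  choose g hg using hn0'
  set y : ℕ → ℝ → X := fun n t => E.ap (n0 + n) (g n) t with hy
  set x : ℕ → ℝ → X := fun n t => E.sap (n0 + n) (g n) t with hx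
  have hT : ∀ t ∈ Icc 0 E.τ, t ∈ Icc 0 E.T := fun t ht => ⟨ht.1, ht.2.trans E.hτT⟩
  have hL : ∀ m, ∃ L, 0 ≤ L ∧ ∀ n, ∀ t ∈ Icc 0 E.τ,
      S.nrm m (y n t) ≤ L ∧ S.q m (x n t) ≤ L ^ 2 := by
    intro m
    obtain ⟨L, hL⟩ := high gw X H S E m
    refine ⟨Real.sqrt |L|, Real.sqrt_nonneg _, fun n t ht => ?_⟩
    have h1 := hL (n0 + n) (g n) (hg n) t ht
    have h2 : Real.sqrt |L| ^ 2 = |L| := Real.sq_sqrt (abs_nonneg L)
    refine ⟨S.nrm_le_of_q_le ?_ (Real.sqrt_nonneg _), ?_⟩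
    · rw [h2]; exact h1.1.trans (le_abs_self L)
    · rw [h2]; exact h1.2.trans (le_abs_self L)
  have hC : ∀ m, ∀ δ > 0, ∃ n1, ∀ n ≥ n1, ∀ l ≥ n1, ∀ t ∈ Icc 0 E.τ,
      S.q m (y n t - y l t) ≤ δ := by
    intro m δ hδ
    obtain ⟨n1, h1⟩ := cau gw high X H S E m δ hδ
    exact ⟨n1, fun n hn l hl t ht =>
      h1 (n0 + n) (by omega) (n0 + l) (by omega) _ _ (hg n) (hg l) t ht⟩
  have hlim : ∀ t, ∃ v, t ∈ Icc 0 E.τ →
      (S.Lim (fun n => y n t) v ∧ (t = 0 → v = E.u0)) := by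
    intro t
    by_cases ht : t ∈ Icc 0 E.τ
    · by_cases h0 : t = 0
      · refine ⟨E.u0, fun _ => ⟨fun m => ?_, fun _ => rfl⟩⟩
        have h1 : (fun n => S.q m (y n t - E.u0)) = fun _ => 0 := by
          funext n
          have h2 : y n t = E.u0 := by
            simp only [hy, Evo.ap, h0, (hg n).h0, map_zero, add_zero]
          rw [h2, sub_self, S.q_zero]
        rw [h1]; exact tendsto_const_nhds
      · obtain ⟨v, hv⟩ := S.complete (fun n => y n t) (fun m δ hδ => by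
          obtain ⟨n1, h1⟩ := hC m δ hδ
          exact ⟨n1, fun n hn k hk => h1 n hn k hk t ht⟩)
        exact ⟨v, fun _ => ⟨hv, fun h => absurd h h0⟩⟩
    · exact ⟨0, fun h => absurd h ht⟩
  choose u hu using hlim
  -- uniform convergence
  have hU : ∀ m, ∀ δ > 0, ∃ n1, ∀ n ≥ n1, ∀ t ∈ Icc 0 E.τ, S.nrm m (y n t - u t) ≤ δ := by
    intro m δ hδ
    have hδ2 : (0 : ℝ) < (δ / 2) ^ 2 := by positivity
    obtain ⟨n1, h1⟩ := hC m ((δ / 2) ^ 2) hδ2
    refine ⟨n1, fun n hn t ht => ?_⟩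
    have h2 := (tendsto_order.1 ((hu t ht).1 m)).2 _ hδ2
    obtain ⟨l, hl1, hl2⟩ := (h2.and (eventually_ge_atTop n1)).exists
    have h3 := S.nrm_le_of_q_le (h1 n hn l hl2 t ht) (by positivity)
    have h4 := S.nrm_le_of_q_le hl1.le (by positivity)
    have h5 := S.nrm_tri m (y n t) (y l t) (u t)
    linarith
  -- bounds for the right side
  have hK : ∀ m, ∃ K, 0 ≤ K ∧ ∀ n, ∀ t ∈ Icc 0 E.τ, S.nrm m (E.F t (x n t)) ≤ K := by
    intro m
    obtain ⟨m', h1⟩ := E.F1 m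
    obtain ⟨L, hL0, h2⟩ := hL m'
    obtain ⟨C, hC'⟩ := h1 (L ^ 2)
    refine ⟨Real.sqrt |C|, Real.sqrt_nonneg _, fun n t ht => ?_⟩
    refine S.nrm_le_of_q_le ?_ (Real.sqrt_nonneg _)
    rw [Real.sq_sqrt (abs_nonneg C)]
    exact (hC' t (hT t ht) _ (h2 n t ht).2).trans (le_abs_self C)
  have hdiff : ∀ m, ∀ t ∈ Icc 0 E.τ, ∀ s' ∈ Icc 0 E.τ, ∀ v : X, ∀ δ > 0, ∃ n1, ∀ n ≥ n1,
      S.nrm m ((y n s' - y n t - (s' - t) • v) - (u s' - u t - (s' - t) • v)) ≤ δ := by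
    intro m t ht s' hs' v δ hδ
    obtain ⟨n1, h1⟩ := hU m (δ / 2) (by positivity)
    refine ⟨n1, fun n hn => ?_⟩
    have h2 : (y n s' - y n t - (s' - t) • v) - (u s' - u t - (s' - t) • v) =
        (y n s' - u s') - (y n t - u t) := by abel
    rw [h2]
    have h3 := S.nrm_sub_le m (y n s' - u s') (y n t - u t)
    have h4 := h1 n hn s' hs'
    have h5 := h1 n hn t ht
    linarith
  have hLip : ∀ m, ∃ K, 0 ≤ K ∧ ∀ t ∈ Icc 0 E.τ, ∀ s' ∈ Icc 0 E.τ,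
      S.nrm m (u s' - u t) ≤ K * |s' - t| := by
    intro m
    obtain ⟨K, hK0, h1⟩ := hK m
    refine ⟨K, hK0, fun t ht s' hs' => ?_⟩
    have h2 : ∀ n ≥ 0, S.nrm m (y n s' - y n t - (s' - t) • (0 : X)) ≤ K * |s' - t| := by
      intro n _
      refine mv E (hg n) m ht hs' 0 fun σ hσ => ?_
      rw [sub_zero]
      exact (S.nrm_J_le _ m _).trans (h1 n σ (uIcc_subset_Icc ht hs' hσ))
    have h3 := le_of_lim S (hdiff m t ht s' hs' 0) h2
    rwa [smul_zero, sub_zero] at h3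
  have hε : ∀ c > 0, ∃ N, ∀ n ≥ N, |S.ε (n0 + n)| ≤ c := by
    intro c hc
    obtain ⟨N, h1⟩ := Metric.tendsto_atTop.1 S.hε c hc
    refine ⟨N, fun n hn => ?_⟩
    have h2 := h1 (n0 + n) (by omega)
    rw [Real.dist_eq, sub_zero] at h2
    exact h2.le
  -- convergence of the smoothed solutions
  have hX : ∀ k, ∀ t ∈ Icc 0 E.τ, ∀ δ > 0, ∃ η > 0, ∃ N, ∀ n ≥ N, ∀ σ ∈ Icc 0 E.τ,
      |σ - t| ≤ η → S.nrm k (x n σ - u t) ≤ δ := by
    intro k t ht δ hδ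
    obtain ⟨L, hL0, h1⟩ := hL (k + 1)
    obtain ⟨K, hK0, h2⟩ := hLip k
    obtain ⟨N1, h3⟩ := hε (δ / (3 * (L + 1))) (by positivity)
    obtain ⟨N2, h4⟩ := hU k (δ / 3) (by positivity)
    refine ⟨δ / (3 * (K + 1)), by positivity, max N1 N2, fun n hn σ hσ hσt => ?_⟩
    have h5 : S.nrm k (x n σ - y n σ) ≤ δ / 3 := by
      refine (S.nrm_err (n0 + n) k (y n σ)).trans ?_
      calc |S.ε (n0 + n)| * S.nrm (k + 1) (y n σ) ≤ (δ / (3 * (L + 1))) * (L + 1) := by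
            refine mul_le_mul (h3 n ((le_max_left _ _).trans hn)) ?_ (S.nrm_nonneg _ _)
              (by positivity)
            have := (h1 n σ hσ).1
            linarith
        _ = δ / 3 := by field_simp
    have h6 := h4 n ((le_max_right _ _).trans hn) σ hσ
    have h7 : S.nrm k (u σ - u t) ≤ δ / 3 := by
      refine (h2 t ht σ hσ).trans ?_
      calc K * |σ - t| ≤ (K + 1) * (δ / (3 * (K + 1))) := by
            refine mul_le_mul (by linarith) hσt (abs_nonneg _) (by positivity)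
        _ = δ / 3 := by field_simp
    have h8 := S.nrm_tri k (x n σ) (y n σ) (u t)
    have h9 := S.nrm_tri k (y n σ) (u σ) (u t)
    linarith
  -- convergence of the right side
  have hF : ∀ m, ∀ t ∈ Icc 0 E.τ, ∀ δ > 0, ∃ η > 0, ∃ N, ∀ n ≥ N, ∀ σ ∈ Icc 0 E.τ,
      |σ - t| ≤ η → S.nrm m (E.F σ (x n σ) - E.F t (u t)) ≤ δ := by
    intro m t ht δ hδ
    by_contra hcon
    push Not at hcon
    have h1 : ∀ j : ℕ, ∃ p : ℕ × ℝ, j ≤ p.1 ∧ p.2 ∈ Icc 0 E.τ ∧ |p.2 - t| ≤ 1 / ((j : ℝ) + 1) ∧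
        δ < S.nrm m (E.F p.2 (x p.1 p.2) - E.F t (u t)) := by
      intro j
      obtain ⟨n, hn, σ, hσ, h2, h3⟩ := hcon (1 / ((j : ℝ) + 1)) (by positivity) j
      exact ⟨(n, σ), hn, hσ, h2, h3⟩
    choose p hp1 hp2 hp3 hp4 using h1
    have hσ : Tendsto (fun j => (p j).2) atTop (𝓝 t) := by
      rw [tendsto_iff_dist_tendsto_zero]
      refine squeeze_zero (fun j => dist_nonneg) (fun j => ?_)
        tendsto_one_div_add_atTop_nhds_zero_nat
      rw [Real.dist_eq]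
      exact hp3 j
    have hx' : S.Lim (fun j => x (p j).1 (p j).2) (u t) := by
      intro k
      rw [Metric.tendsto_atTop]
      intro c hc
      obtain ⟨η, hη, N, h2⟩ := hX k t ht (Real.sqrt (c / 2)) (Real.sqrt_pos.2 (by positivity))
      obtain ⟨N', hN'⟩ := exists_nat_gt (1 / η)
      refine ⟨max N N', fun j hj => ?_⟩
      have hj1 : N ≤ (p j).1 := ((le_max_left _ _).trans hj).trans (hp1 j)
      have hj2 : (N' : ℝ) ≤ j := by exact_mod_cast (le_max_right _ _).trans hj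
      have h3 : 1 / ((j : ℝ) + 1) ≤ η := by
        rw [div_le_iff₀ (by positivity)]
        rw [div_lt_iff₀ hη] at hN'
        nlinarith
      have h4 := h2 (p j).1 hj1 (p j).2 (hp2 j) ((hp3 j).trans h3)
      have h5 := S.q_le_of_nrm_le h4
      rw [Real.sq_sqrt (by positivity)] at h5
      rw [Real.dist_eq, sub_zero, abs_of_nonneg (S.q_nonneg _ _)]
      linarith
    have h2 := E.F0 (fun j => (p j).2) (fun j => x (p j).1 (p j).2) t (u t)
      (fun j => hT _ (hp2 j)) (hT t ht) hσ hx' m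
    have h3 := (tendsto_order.1 h2).2 (δ ^ 2) (by positivity)
    obtain ⟨j, hj⟩ := h3.exists
    have h4 := S.nrm_le_of_q_le hj.le hδ.le
    exact absurd (hp4 j) (not_lt.2 h4)
  have hJF : ∀ m, ∀ t ∈ Icc 0 E.τ, ∀ δ > 0, ∃ η > 0, ∃ N, ∀ n ≥ N, ∀ σ ∈ Icc 0 E.τ,
      |σ - t| ≤ η → S.nrm m (S.J (n0 + n) (S.ι (E.F σ (x n σ))) - E.F t (u t)) ≤ δ := by
    intro m t ht δ hδ
    obtain ⟨K, hK0, h1⟩ := hK (m + 1)
    obtain ⟨N1, h3⟩ := hε (δ / (2 * (K + 1))) (by positivity)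
    obtain ⟨η, hη, N2, h4⟩ := hF m t ht (δ / 2) (by positivity)
    refine ⟨η, hη, max N1 N2, fun n hn σ hσ hσt => ?_⟩
    have h5 : S.nrm m (S.J (n0 + n) (S.ι (E.F σ (x n σ))) - E.F σ (x n σ)) ≤ δ / 2 := by
      refine (S.nrm_err (n0 + n) m (E.F σ (x n σ))).trans ?_
      calc |S.ε (n0 + n)| * S.nrm (m + 1) (E.F σ (x n σ)) ≤ (δ / (2 * (K + 1))) * (K + 1) := by
            refine mul_le_mul (h3 n ((le_max_left _ _).trans hn)) ?_ (S.nrm_nonneg _ _)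
              (by positivity)
            have := h1 n σ hσ
            linarith
        _ = δ / 2 := by field_simp
    have h6 := h4 n ((le_max_right _ _).trans hn) σ hσ hσt
    have h7 := S.nrm_tri m (S.J (n0 + n) (S.ι (E.F σ (x n σ)))) (E.F σ (x n σ)) (E.F t (u t))
    linarith
  have hconv : ∀ m, ∀ t ∈ Icc 0 E.τ, ∀ w : X, ∀ δ > 0, ∃ n1, ∀ n ≥ n1,
      S.nrm m ((y n t - w) - (u t - w)) ≤ δ := by
    intro m t ht w δ hδ
    obtain ⟨n1, h1⟩ := hU m δ hδ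
    refine ⟨n1, fun n hn => ?_⟩
    have h2 : (y n t - w) - (u t - w) = y n t - u t := by abel
    rw [h2]; exact h1 n hn t ht
  refine ⟨u, ?_, ?_, ?_, ?_⟩
  · exact (hu 0 ⟨le_refl _, E.hτ.le⟩).2 rfl
  · intro t ht
    have h1 : ∀ n, E.Adm (y n t) := fun n => (hg n).adm t ht
    constructor
    · have hR : 0 ≤ E.R := (S.q_nonneg _ _).trans (h1 0).1
      have h2 : ∀ n ≥ 0, S.nrm E.s (y n t - 0) ≤ Real.sqrt E.R := fun n _ => by
        rw [sub_zero]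
        exact Real.sqrt_le_sqrt (h1 n).1
      have h3 := le_of_lim S (hconv E.s t ht 0) h2
      rw [sub_zero] at h3
      have h4 := S.q_le_of_nrm_le h3
      rwa [Real.sq_sqrt hR] at h4
    · have h2 : ∀ n ≥ 0, S.nrm E.m0 (y n t - E.u0) ≤ Real.sqrt E.r := fun n _ =>
        Real.sqrt_le_sqrt (h1 n).2
      have h3 := le_of_lim S (hconv E.m0 t ht E.u0) h2
      have h4 := S.q_le_of_nrm_le h3
      rwa [Real.sq_sqrt E.hr.le] at h4
  · intro m
    obtain ⟨L, hL0, h1⟩ := hL m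
    refine ⟨L ^ 2, fun t ht => ?_⟩
    have h2 : ∀ n ≥ 0, S.nrm m (y n t - 0) ≤ L := fun n _ => by
      rw [sub_zero]; exact (h1 n t ht).1
    have h3 := le_of_lim S (hconv m t ht 0) h2
    rw [sub_zero] at h3
    exact S.q_le_of_nrm_le h3
  · intro m t ht δ hδ
    obtain ⟨η, hη, N, h1⟩ := hJF m t ht (Real.sqrt δ) (Real.sqrt_pos.2 hδ)
    refine ⟨η, hη, fun s' hs' hst => ?_⟩
    have h2 : ∀ n ≥ N, S.nrm m (y n s' - y n t - (s' - t) • E.F t (u t)) ≤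
        Real.sqrt δ * |s' - t| := by
      intro n hn
      refine mv E (hg n) m ht hs' _ fun σ hσ => ?_
      refine h1 n hn σ (uIcc_subset_Icc ht hs' hσ) ?_
      exact (abs_sub_left_of_mem_uIcc hσ).trans hst
    have h3 := le_of_lim S (hdiff m t ht s' hs' (E.F t (u t))) h2
    have h4 := S.q_le_of_nrm_le h3
    rwa [mul_pow, Real.sq_sqrt hδ.le, sq_abs] at h4

end Pool.Agent.Helper13.EV
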